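import Pool.Agent.Lib.MP_f2857b_co.Defs

namespace Pool.Agent.Lib.MP_f2857b_co

open SimpleGraph

variable {a b n : ℕ} {G : SimpleGraph (Fin a)} {H : SimpleGraph (Fin b)}

theorem redDegree_lt (R : SimpleGraph (Fin n)) (v : Fin n) : redDegree R v + 1 ≤ n := by
  unfold redDegree
  have h1 : R.neighborSet v ⊆ {v}ᶜ := by
    intro w hw
    simp only [Set.mem_compl_iff, Set.mem_singleton_iff]
    rintro rfl
    exact R.loopless.irrefl _ hw
  have h2 := Set.ncard_le_ncard h1 (Set.toFinite _)
  have h3 : ({v}ᶜ : Set (Fin n)).ncard = n - 1 := by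
    rw [Set.ncard_compl, Set.ncard_singleton, Nat.card_eq_fintype_card, Fintype.card_fin]
  have h4 : 0 < n := v.pos
  omega

theorem bdd_image (R : SimpleGraph (Fin n)) (X : Set (Fin n)) : BddAbove (redDegree R '' X) := by
  refine ⟨n, ?_⟩
  rintro _ ⟨v, _, rfl⟩
  have := redDegree_lt R v
  omega

theorem sub_le_spread (R : SimpleGraph (Fin n)) {X : Set (Fin n)} {u v : Fin n} (hu : u ∈ X)
    (hv : v ∈ X) : redDegree R u - redDegree R v ≤ spread R X := by
  unfold spread
  have h1 : redDegree R u ≤ sSup (redDegree R '' X) :=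
    le_csSup (bdd_image R X) (Set.mem_image_of_mem _ hu)
  have h2 : sInf (redDegree R '' X) ≤ redDegree R v :=
    csInf_le (OrderBot.bddBelow _) (Set.mem_image_of_mem _ hv)
  omega

theorem spread_le (R : SimpleGraph (Fin n)) {X : Set (Fin n)} (hX : X.Nonempty) {t : ℕ}
    (h : ∀ u ∈ X, ∀ v ∈ X, redDegree R u ≤ redDegree R v + t) : spread R X ≤ t := by
  unfold spread
  have h1 : sSup (redDegree R '' X) ∈ redDegree R '' X :=
    Nat.sSup_mem (hX.image _) (bdd_image R X)
  have h2 : sInf (redDegree R '' X) ∈ redDegree R '' X := Nat.sInf_mem (hX.image _)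
  obtain ⟨u, hu, hu'⟩ := h1
  obtain ⟨v, hv, hv'⟩ := h2
  have := h u hu v hv
  omega

theorem colSpread_le (R : SimpleGraph (Fin n)) {X : Set (Fin n)} (hX : Admissible G H R X) :
    colSpread G H R ≤ spread R X :=
  Nat.sInf_le ⟨X, hX, rfl⟩

theorem le_colSpread (R : SimpleGraph (Fin n)) {X : Set (Fin n)} (hX : Admissible G H R X) {t : ℕ}
    (h : ∀ Y, Admissible G H R Y → t ≤ spread R Y) : t ≤ colSpread G H R := by
  have h1 : {s : ℕ | ∃ X : Set (Fin n), Admissible G H R X ∧ s = spread R X}.Nonempty :=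
    ⟨_, X, hX, rfl⟩
  obtain ⟨Y, hY, hY'⟩ := Nat.sInf_mem h1
  have := h Y hY
  unfold colSpread
  rw [hY']
  exact this

theorem Phi_bdd : BddAbove {s : ℕ | ∃ R : SimpleGraph (Fin n), s = colSpread G H R} := by
  have : {s : ℕ | ∃ R : SimpleGraph (Fin n), s = colSpread G H R} =
      Set.range (fun R : SimpleGraph (Fin n) => colSpread G H R) := by
    ext s
    constructor
    · rintro ⟨R, h⟩
      exact ⟨R, h.symm⟩
    · rintro ⟨R, h⟩
      exact ⟨R, h.symm⟩
  rw [this]
  exact (Set.finite_range _).bddAbove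

theorem le_Phi (R : SimpleGraph (Fin n)) : colSpread G H R ≤ Phi G H n :=
  le_csSup Phi_bdd ⟨R, rfl⟩

theorem Phi_le {t : ℕ} (h : ∀ R : SimpleGraph (Fin n), colSpread G H R ≤ t) : Phi G H n ≤ t := by
  unfold Phi
  refine csSup_le ⟨colSpread G H (⊥ : SimpleGraph (Fin n)), ⊥, rfl⟩ ?_
  rintro _ ⟨R, rfl⟩
  exact h R

theorem Admissible.nonempty (ha : 0 < a) (hb : 0 < b) {R : SimpleGraph (Fin n)}
    {X : Set (Fin n)} (h : Admissible G H R X) : X.Nonempty := by
  rcases h with ⟨f, rfl⟩ | ⟨f, rfl⟩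
  · exact ⟨f ⟨0, ha⟩, _, rfl⟩
  · exact ⟨f ⟨0, hb⟩, _, rfl⟩

/-- Finite Ramsey theorem, in terms of cliques. -/
theorem ramsey_clique (m : ℕ) : ∀ s t : ℕ, s + t = m → ∃ N : ℕ, ∀ (W : Finset ℕ)
    (R : SimpleGraph ℕ), N ≤ W.card →
    (∃ S ⊆ W, S.card = s ∧ R.IsClique S) ∨ (∃ S ⊆ W, S.card = t ∧ Rᶜ.IsClique S) := by
  induction m with
  | zero =>
    intro s t hst
    refine ⟨0, fun W R _ => Or.inl ⟨∅, by simp, ?_, by simp⟩⟩
    simp; omega
  | succ m ih =>
    intro s t hst
    rcases Nat.eq_zero_or_pos s with hs | hs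
    · exact ⟨0, fun W R _ => Or.inl ⟨∅, by simp, by simp [hs], by simp⟩⟩
    rcases Nat.eq_zero_or_pos t with ht | ht
    · exact ⟨0, fun W R _ => Or.inr ⟨∅, by simp, by simp [ht], by simp⟩⟩
    obtain ⟨N1, h1⟩ := ih (s - 1) t (by omega)
    obtain ⟨N2, h2⟩ := ih s (t - 1) (by omega)
    refine ⟨N1 + N2 + 1, fun W R hW => ?_⟩
    classical
    obtain ⟨v, hv⟩ : W.Nonempty := by
      rw [← Finset.card_pos]; omega
    have hsplit : ((W.erase v).filter (fun w => R.Adj v w)).card +
        ((W.erase v).filter (fun w => ¬ R.Adj v w)).card = (W.erase v).card :=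
      Finset.card_filter_add_card_filter_not (s := W.erase v) (fun w => R.Adj v w)
    have hcard : (W.erase v).card = W.card - 1 := Finset.card_erase_of_mem hv
    have hor : N1 ≤ ((W.erase v).filter (fun w => R.Adj v w)).card ∨
        N2 ≤ ((W.erase v).filter (fun w => ¬ R.Adj v w)).card := by omega
    rcases hor with hor | hor
    · rcases h1 _ R hor with ⟨S, hS, hc, hcl⟩ | ⟨S, hS, hc, hcl⟩
      · left
        refine ⟨insert v S, ?_, ?_, ?_⟩
        · intro x hx
          rcases Finset.mem_insert.mp hx with rfl | hx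
          · exact hv
          · exact Finset.mem_of_mem_erase (Finset.mem_filter.mp (hS hx)).1
        · rw [Finset.card_insert_of_notMem, hc]
          · omega
          · intro hvS
            have := (Finset.mem_filter.mp (hS hvS)).1
            simp at this
        · rw [Finset.coe_insert, SimpleGraph.isClique_insert]
          refine ⟨hcl, fun x hx _ => (Finset.mem_filter.mp (hS hx)).2⟩
      · right
        refine ⟨S, fun x hx => Finset.mem_of_mem_erase (Finset.mem_filter.mp (hS hx)).1, hc, hcl⟩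
    · rcases h2 _ R hor with ⟨S, hS, hc, hcl⟩ | ⟨S, hS, hc, hcl⟩
      · left
        refine ⟨S, fun x hx => Finset.mem_of_mem_erase (Finset.mem_filter.mp (hS hx)).1, hc, hcl⟩
      · right
        refine ⟨insert v S, ?_, ?_, ?_⟩
        · intro x hx
          rcases Finset.mem_insert.mp hx with rfl | hx
          · exact hv
          · exact Finset.mem_of_mem_erase (Finset.mem_filter.mp (hS hx)).1
        · rw [Finset.card_insert_of_notMem, hc]
          · omega
          · intro hvS
            have := (Finset.mem_filter.mp (hS hvS)).1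
            simp at this
        · rw [Finset.coe_insert, SimpleGraph.isClique_insert]
          refine ⟨hcl, fun x hx hne => ?_⟩
          rw [SimpleGraph.compl_adj]
          exact ⟨hne, (Finset.mem_filter.mp (hS hx)).2⟩

/-- A clique with `c` vertices contains a copy of every graph on `Fin c`. -/
theorem copy_of_clique {V : Type*} (R : SimpleGraph V) {c : ℕ} (F : SimpleGraph (Fin c))
    (S : Finset V) (hS : S.card = c) (hcl : R.IsClique S) : Nonempty (SimpleGraph.Copy F R) := by
  classical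
  let e : Fin c ≃ S := (Fintype.equivFinOfCardEq (by simpa using hS)).symm
  refine ⟨⟨⟨fun x => (e x : V), ?_⟩, ?_⟩⟩
  · intro x y hxy
    apply hcl (e x).2 (e y).2
    intro h
    have : e x = e y := Subtype.ext h
    exact hxy.ne (e.injective this)
  · intro x y hxy
    have : e x = e y := Subtype.ext hxy
    exact e.injective this

theorem exists_arrows (G : SimpleGraph (Fin a)) (H : SimpleGraph (Fin b)) :
    {N : ℕ | Arrows G H N}.Nonempty := by
  obtain ⟨N, hN⟩ := ramsey_clique (a + b) a b rfl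
  refine ⟨N, fun R => ?_⟩
  let R' : SimpleGraph ℕ := R.map Fin.valEmbedding
  rcases hN (Finset.range N) R' (by simp) with ⟨S, hS, hc, hcl⟩ | ⟨S, hS, hc, hcl⟩
  · left
    classical
    have hS' : ∀ x ∈ S, x < N := fun x hx => Finset.mem_range.mp (hS hx)
    let T : Finset (Fin N) := S.attachFin hS'
    refine copy_of_clique R G T (by simp [T, hc]) ?_
    intro x hx y hy hxy
    have h1 : (x : ℕ) ∈ S := by simpa [T] using hx
    have h2 : (y : ℕ) ∈ S := by simpa [T] using hy
    have h3 := hcl h1 h2 (fun h => hxy (Fin.ext h))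
    exact (SimpleGraph.map_adj_apply (f := Fin.valEmbedding) (G := R)).mp h3
  · right
    classical
    have hS' : ∀ x ∈ S, x < N := fun x hx => Finset.mem_range.mp (hS hx)
    let T : Finset (Fin N) := S.attachFin hS'
    refine copy_of_clique Rᶜ H T (by simp [T, hc]) ?_
    intro x hx y hy hxy
    have h1 : (x : ℕ) ∈ S := by simpa [T] using hx
    have h2 : (y : ℕ) ∈ S := by simpa [T] using hy
    have h3 := hcl h1 h2 (fun h => hxy (Fin.ext h))
    rw [SimpleGraph.compl_adj] at h3 ⊢
    exact ⟨hxy, fun h => h3.2 ((SimpleGraph.map_adj_apply (f := Fin.valEmbedding) (G := R)).mpr h)⟩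

theorem arrows_ramsey (G : SimpleGraph (Fin a)) (H : SimpleGraph (Fin b)) :
    Arrows G H (ramsey G H) := Nat.sInf_mem (exists_arrows G H)

/-- If `N` arrows `(G, H)`, every set with at least `N` vertices contains an admissible set. -/
theorem exists_admissible {N : ℕ} (hN : Arrows G H N) (R : SimpleGraph (Fin n))
    (e : Fin N → Fin n) (he : Function.Injective e) :
    ∃ X, Admissible G H R X ∧ X ⊆ Set.range e := by
  rcases hN (R.comap e) with ⟨⟨f⟩⟩ | ⟨⟨f⟩⟩
  · refine ⟨Set.range (fun x => e (f x)), Or.inl ⟨⟨⟨fun x => e (f x), ?_⟩, ?_⟩, rfl⟩, ?_⟩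
    · intro x y hxy
      exact f.toHom.map_adj hxy
    · intro x y hxy
      exact f.injective (he hxy)
    · rintro _ ⟨x, rfl⟩
      exact ⟨_, rfl⟩
  · refine ⟨Set.range (fun x => e (f x)), Or.inr ⟨⟨⟨fun x => e (f x), ?_⟩, ?_⟩, rfl⟩, ?_⟩
    · intro x y hxy
      have := f.toHom.map_adj hxy
      rw [SimpleGraph.compl_adj] at this ⊢
      exact ⟨fun h => this.1 (he h), this.2⟩
    · intro x y hxy
      exact f.injective (he hxy)
    · rintro _ ⟨x, rfl⟩
      exact ⟨_, rfl⟩

theorem exists_admissible_of_le {N : ℕ} (hN : Arrows G H N) (h : N ≤ n)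
    (R : SimpleGraph (Fin n)) : ∃ X, Admissible G H R X := by
  obtain ⟨X, hX, _⟩ := exists_admissible hN R (Fin.castLE h) (Fin.castLE_injective h)
  exact ⟨X, hX⟩

end Pool.Agent.Lib.MP_f2857b_co
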