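import Mathlib

namespace Pool.Agent.Lib.MP_f2857b_co

/-- The graph has at least one vertex and no isolated vertex (hence at least one edge). -/
def NoIsolated {a : ℕ} (G : SimpleGraph (Fin a)) : Prop :=
  0 < a ∧ ∀ v : Fin a, ∃ w : Fin a, G.Adj v w

/-- Every red/blue colouring of the edges of `K_N` (`R` is the graph of the red edges, its
complement the graph of the blue edges) contains a red copy of `G` or a blue copy of `H`. -/
def Arrows {a b : ℕ} (G : SimpleGraph (Fin a)) (H : SimpleGraph (Fin b)) (N : ℕ) : Prop :=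
  ∀ R : SimpleGraph (Fin N), Nonempty (SimpleGraph.Copy G R) ∨ Nonempty (SimpleGraph.Copy H Rᶜ)

/-- The Ramsey number `r(G, H)`. -/
noncomputable def ramsey {a b : ℕ} (G : SimpleGraph (Fin a)) (H : SimpleGraph (Fin b)) : ℕ :=
  sInf {N : ℕ | Arrows G H N}

/-- The red degree of a vertex. -/
noncomputable def redDegree {n : ℕ} (R : SimpleGraph (Fin n)) (v : Fin n) : ℕ :=
  (R.neighborSet v).ncard

/-- `X` is the vertex set of a red copy of `G` or of a blue copy of `H`. -/
def Admissible {a b n : ℕ} (G : SimpleGraph (Fin a)) (H : SimpleGraph (Fin b))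
    (R : SimpleGraph (Fin n)) (X : Set (Fin n)) : Prop :=
  (∃ f : SimpleGraph.Copy G R, Set.range f = X) ∨ (∃ f : SimpleGraph.Copy H Rᶜ, Set.range f = X)

/-- The degree spread of a (nonempty) vertex set: maximal minus minimal red degree. -/
noncomputable def spread {n : ℕ} (R : SimpleGraph (Fin n)) (X : Set (Fin n)) : ℕ :=
  sSup (redDegree R '' X) - sInf (redDegree R '' X)

/-- The degree spread of a colouring: the least degree spread of an admissible set. -/
noncomputable def colSpread {a b n : ℕ} (G : SimpleGraph (Fin a)) (H : SimpleGraph (Fin b))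
    (R : SimpleGraph (Fin n)) : ℕ :=
  sInf {s : ℕ | ∃ X : Set (Fin n), Admissible G H R X ∧ s = spread R X}

/-- `Phi_n(G, H)`: the largest degree spread of a red/blue colouring of `K_n`. -/
noncomputable def Phi {a b : ℕ} (G : SimpleGraph (Fin a)) (H : SimpleGraph (Fin b)) (n : ℕ) : ℕ :=
  sSup {s : ℕ | ∃ R : SimpleGraph (Fin n), s = colSpread G H R}

end Pool.Agent.Lib.MP_f2857b_co
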