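import Pool.Agent.Lib.MP_f2857b_co.Upper

namespace Pool.Agent.Lib.MP_f2857b_co

open SimpleGraph

variable {a b n : ℕ} {G : SimpleGraph (Fin a)} {H : SimpleGraph (Fin b)}

/-- Counting windows of length `k`: the values `e v` lie in `[0, L]` and for each `v` at most
`c v` other members have value at distance `< k`. -/
theorem window_count {V : Type*} [DecidableEq V] (B : Finset V) (e : V → ℕ) (k L : ℕ)
    (he : ∀ v ∈ B, e v ≤ L) :
    (k * B.card) ^ 2 ≤ (L + k) *
      (k * (B.card + ∑ v ∈ B, (B.filter (fun u => u ≠ v ∧ e u < e v + k ∧ e v < e u + k)).card)) := by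
  classical
  let w : ℕ → ℕ := fun t => (B.filter (fun v => e v ≤ t ∧ t < e v + k)).card
  have h1 : ∑ t ∈ Finset.range (L + k), w t = k * B.card := by
    have h2 : ∑ t ∈ Finset.range (L + k), w t =
        ∑ v ∈ B, ((Finset.range (L + k)).filter (fun t => e v ≤ t ∧ t < e v + k)).card := by
      simp only [w, Finset.card_filter]
      exact Finset.sum_comm
    rw [h2]
    have h3 : ∀ v ∈ B, ((Finset.range (L + k)).filter (fun t => e v ≤ t ∧ t < e v + k)).card
        = k := by
      intro v hv
      have h4 : (Finset.range (L + k)).filter (fun t => e v ≤ t ∧ t < e v + k) =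
          Finset.Ico (e v) (e v + k) := by
        ext t
        have := he v hv
        simp only [Finset.mem_filter, Finset.mem_range, Finset.mem_Ico]
        omega
      rw [h4, Nat.card_Ico]
      omega
    rw [Finset.sum_congr rfl h3, Finset.sum_const, smul_eq_mul, mul_comm]
  have h5 : ∑ t ∈ Finset.range (L + k), (w t) ^ 2 ≤
      k * (B.card + ∑ v ∈ B,
        (B.filter (fun u => u ≠ v ∧ e u < e v + k ∧ e v < e u + k)).card) := by
    have h6 : ∑ t ∈ Finset.range (L + k), (w t) ^ 2 =
        ∑ v ∈ B, ∑ u ∈ B, ((Finset.range (L + k)).filter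
          (fun t => (e v ≤ t ∧ t < e v + k) ∧ (e u ≤ t ∧ t < e u + k))).card := by
      have h7 : ∀ t, (w t) ^ 2 = ∑ v ∈ B, ∑ u ∈ B,
          (if (e v ≤ t ∧ t < e v + k) ∧ (e u ≤ t ∧ t < e u + k) then 1 else 0) := by
        intro t
        simp only [w, sq, Finset.card_filter, Finset.sum_mul_sum]
        refine Finset.sum_congr rfl (fun v _ => Finset.sum_congr rfl (fun u _ => ?_))
        by_cases h8 : (e v ≤ t ∧ t < e v + k) <;> by_cases h9 : (e u ≤ t ∧ t < e u + k) <;>
          simp [h8, h9]
      simp only [h7, Finset.card_filter]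
      rw [Finset.sum_comm]
      refine Finset.sum_congr rfl (fun v _ => ?_)
      exact Finset.sum_comm
    rw [h6]
    have h10 : ∀ v ∈ B, ∑ u ∈ B, ((Finset.range (L + k)).filter
          (fun t => (e v ≤ t ∧ t < e v + k) ∧ (e u ≤ t ∧ t < e u + k))).card ≤
        k * (1 + (B.filter (fun u => u ≠ v ∧ e u < e v + k ∧ e v < e u + k)).card) := by
      intro v hv
      have h11 : ∀ u ∈ B, ((Finset.range (L + k)).filter
          (fun t => (e v ≤ t ∧ t < e v + k) ∧ (e u ≤ t ∧ t < e u + k))).card ≤
          (if u = v then k else 0) +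
            (if (u ≠ v ∧ e u < e v + k ∧ e v < e u + k) then k else 0) := by
        intro u _
        have h12 : ((Finset.range (L + k)).filter
          (fun t => (e v ≤ t ∧ t < e v + k) ∧ (e u ≤ t ∧ t < e u + k))).card ≤ k := by
          have h13 : (Finset.range (L + k)).filter
              (fun t => (e v ≤ t ∧ t < e v + k) ∧ (e u ≤ t ∧ t < e u + k)) ⊆
              Finset.Ico (e v) (e v + k) := by
            intro t ht
            simp only [Finset.mem_filter, Finset.mem_range, Finset.mem_Ico] at ht ⊢
            omega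
          have := Finset.card_le_card h13
          rw [Nat.card_Ico] at this
          omega
        by_cases h14 : u = v
        · simp only [h14, if_true]
          subst h14
          omega
        · by_cases h15 : (e u < e v + k ∧ e v < e u + k)
          · have h16 : (u ≠ v ∧ e u < e v + k ∧ e v < e u + k) := ⟨h14, h15⟩
            rw [if_neg h14, if_pos h16]
            omega
          · have h17 : (Finset.range (L + k)).filter
              (fun t => (e v ≤ t ∧ t < e v + k) ∧ (e u ≤ t ∧ t < e u + k)) = ∅ := by
              rw [Finset.filter_eq_empty_iff]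
              intro t _ ht
              apply h15
              omega
            rw [h17, Finset.card_empty]
            exact Nat.zero_le _
      refine (Finset.sum_le_sum h11).trans ?_
      rw [Finset.sum_add_distrib, Finset.sum_ite_eq' B v, if_pos hv, mul_add, mul_one,
        ← Finset.sum_filter, Finset.sum_const, smul_eq_mul, mul_comm k]
    refine (Finset.sum_le_sum h10).trans ?_
    rw [← Finset.mul_sum, Finset.sum_add_distrib, Finset.sum_const, smul_eq_mul, mul_one]
  have h18 := sq_sum_le_card_mul_sum_sq (s := Finset.range (L + k)) (f := w)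
  rw [h1, Finset.card_range] at h18
  refine h18.trans ?_
  simp only [Nat.cast_id]
  exact Nat.mul_le_mul_left _ h5

/-- The Ramsey number of `K_2` and a graph on `m` vertices is `m`. -/
theorem ramsey_K2 {m : ℕ} (H : SimpleGraph (Fin m)) :
    ramsey (⊤ : SimpleGraph (Fin 2)) H = m := by
  apply le_antisymm
  · apply Nat.sInf_le
    intro R
    by_cases h : ∃ u v, R.Adj u v
    · left
      obtain ⟨u, v, huv⟩ := h
      refine ⟨⟨⟨![u, v], ?_⟩, ?_⟩⟩
      · intro x y hxy
        fin_cases x <;> fin_cases y <;> simp_all
        exact huv.symm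
      · intro x y hxy
        have hne := huv.ne
        have hne' := huv.ne'
        fin_cases x <;> fin_cases y <;> simp_all
    · right
      push Not at h
      refine ⟨⟨⟨id, ?_⟩, fun x y hxy => hxy⟩⟩
      intro x y hxy
      rw [SimpleGraph.compl_adj]
      exact ⟨hxy.ne, h _ _⟩
  · by_contra hlt
    push Not at hlt
    have h1 := arrows_ramsey (⊤ : SimpleGraph (Fin 2)) H ⊥
    rcases h1 with ⟨⟨f⟩⟩ | ⟨⟨f⟩⟩
    · have : (⊤ : SimpleGraph (Fin 2)).Adj 0 1 := by simp
      have := f.toHom.map_adj this
      simp at this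
    · have := Fintype.card_le_of_injective f f.injective
      simp only [Fintype.card_fin] at this
      omega

theorem K2_lower_aux {k q s : ℕ} (hk : 3 ≤ k) (hq : q + 2 = k) (hs : s = q * (k + 1))
    (H : SimpleGraph (Fin (k + 2))) (R : SimpleGraph (Fin (s + q * (k + 1))))
    (hR : k ≤ colSpread (⊤ : SimpleGraph (Fin 2)) H R) : False := by
  classical
  -- red edges join vertices whose degrees differ by at least `k`
  have hadj : ∀ u v, R.Adj u v →
      redDegree R u + k ≤ redDegree R v ∨ redDegree R v + k ≤ redDegree R u := by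
    intro u v huv
    have hX : Admissible (⊤ : SimpleGraph (Fin 2)) H R {u, v} := by
      left
      refine ⟨⟨⟨![u, v], ?_⟩, ?_⟩, ?_⟩
      · intro x y hxy
        fin_cases x <;> fin_cases y <;> simp_all
        exact huv.symm
      · intro x y hxy
        have hne := huv.ne
        have hne' := huv.ne'
        fin_cases x <;> fin_cases y <;> simp_all
      · ext z
        constructor
        · rintro ⟨x, rfl⟩
          fin_cases x
          · exact Or.inl rfl
          · exact Or.inr rfl
        · rintro (rfl | rfl)
          · exact ⟨0, rfl⟩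
          · exact ⟨1, rfl⟩
    have h1 := hR.trans (colSpread_le R hX)
    by_contra hcon
    push Not at hcon
    have h2 : spread R {u, v} ≤ k - 1 := by
      apply spread_le R ⟨u, by simp⟩
      intro x hx y hy
      simp only [Set.mem_insert_iff, Set.mem_singleton_iff] at hx hy
      rcases hx with rfl | rfl <;> rcases hy with rfl | rfl <;> omega
    omega
  obtain ⟨σ, hσ⟩ := exists_sort R
  have hwin : ∀ i j : Fin (s + q * (k + 1)), (i : ℕ) + (k + 1) = j →
      redDegree R (σ i) + k ≤ redDegree R (σ j) := by
    intro i j hij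
    have hlt : ∀ t : Fin (k + 2), (i : ℕ) + t < s + q * (k + 1) := by
      intro t
      have := t.2
      have := j.2
      omega
    let e : Fin (k + 2) → Fin (s + q * (k + 1)) := fun t => σ ⟨i + t, hlt t⟩
    have he : Function.Injective e := by
      intro x y h
      have := σ.injective h
      simp only [Fin.mk.injEq] at this
      exact Fin.ext (by omega)
    have har := arrows_ramsey (⊤ : SimpleGraph (Fin 2)) H
    rw [ramsey_K2] at har
    obtain ⟨X, hX, hXe⟩ := exists_admissible har R e he
    have h1 := hR.trans (colSpread_le R hX)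
    have h2 : spread R X ≤ redDegree R (σ j) - redDegree R (σ i) := by
      apply spread_le R (hX.nonempty (by norm_num) (by omega))
      intro u hu v hv
      obtain ⟨x, rfl⟩ := hXe hu
      obtain ⟨y, rfl⟩ := hXe hv
      have h3 : redDegree R (e x) ≤ redDegree R (σ j) := by
        apply hσ
        rw [Fin.le_def]
        have := x.2
        simp only
        omega
      have h4 : redDegree R (σ i) ≤ redDegree R (e y) := by
        apply hσ
        rw [Fin.le_def]
        simp
      omega
    have h5 : redDegree R (σ i) ≤ redDegree R (σ j) := by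
      apply hσ
      rw [Fin.le_def]
      omega
    omega
  obtain ⟨A, B, hAB, hA, hB, hBmem, hsum⟩ :=
    top_bottom R σ s q (k + 1) k rfl (by omega) hwin
  -- lower bound for the degrees in `B`
  have hBdeg : ∀ v ∈ B, q * k ≤ redDegree R v := by
    intro v hv
    have h1 := (hBmem v).mp hv
    let δ : ℕ → ℕ := fun i => if h : i < s + q * (k + 1) then redDegree R (σ ⟨i, h⟩) else 0
    have hδ : ∀ i (h : i < s + q * (k + 1)), δ i = redDegree R (σ ⟨i, h⟩) :=
      fun i h => by simp [δ, h]
    have hch : ∀ i, i + (k + 1) < s + q * (k + 1) → δ i + k ≤ δ (i + (k + 1)) := by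
      intro i hi
      rw [hδ i (by omega), hδ (i + (k + 1)) hi]
      exact hwin _ _ rfl
    have hlt := (σ.symm v).2
    have h2 := chain δ (k + 1) k hch q ((σ.symm v : Fin _) - q * (k + 1)) (by omega)
    have h3 : ((σ.symm v : Fin _) : ℕ) - q * (k + 1) + q * (k + 1) = (σ.symm v : Fin _) := by
      omega
    rw [h3, hδ _ hlt] at h2
    simp only [Fin.eta, Equiv.apply_symm_apply] at h2
    omega
  let C : Fin (s + q * (k + 1)) → Finset (Fin (s + q * (k + 1))) := fun v =>
    B.filter (fun u => u ≠ v ∧ redDegree R u - q * k < (redDegree R v - q * k) + k ∧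
      redDegree R v - q * k < (redDegree R u - q * k) + k)
  have hdc := double_count R A B hAB s hA C (by
    intro v hv u hu
    simp only [C, Finset.mem_filter] at hu
    refine ⟨hu.1, hu.2.1, fun h => ?_⟩
    have h1 := hadj v u h
    have h2 := hBdeg v hv
    have h3 := hBdeg u hu.1
    omega)
  rw [Finset.sum_add_distrib, hB] at hdc
  have hC : ∑ v ∈ B, (C v).card ≤ s * (q - 1) := by
    have h1 : s + q * (k + 1) - s - 1 = q * k + (q - 1) := by
      have : q * (k + 1) = q * k + q := by ring
      omega
    rw [h1] at hdc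
    have h2 : s * (q * k + (q - 1)) = s * (q * k) + s * (q - 1) := by ring
    omega
  have hwc := window_count B (fun v => redDegree R v - q * k) k (s + q - 1) (by
    intro v _
    have h1 := redDegree_lt R v
    have : q * (k + 1) = q * k + q := by ring
    omega)
  have h1 : (k * B.card) ^ 2 ≤ (s + q - 1 + k) * (k * (s + s * (q - 1))) := by
    refine hwc.trans (Nat.mul_le_mul_left _ (Nat.mul_le_mul_left _ ?_))
    rw [hB]
    exact Nat.add_le_add_left hC _
  rw [hB] at h1
  have hq1 : 1 ≤ q := by omega
  have h2 : s + s * (q - 1) = s * q := by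
    obtain ⟨q', rfl⟩ : ∃ q', q = q' + 1 := ⟨q - 1, by omega⟩
    simp only [Nat.add_sub_cancel]
    ring
  rw [h2] at h1
  have hspos : 0 < k * s := by
    rw [hs]
    positivity
  have h3 : (k * s) * (k * s) ≤ (k * s) * ((s + q - 1 + k) * q) := by
    calc (k * s) * (k * s) = (k * s) ^ 2 := by ring
      _ ≤ _ := h1
      _ = _ := by ring
  have h4 := Nat.le_of_mul_le_mul_left h3 hspos
  obtain ⟨q', rfl⟩ : ∃ q', q = q' + 1 := ⟨q - 1, by omega⟩
  have hk' : k = q' + 3 := by omega
  subst hk'
  have h5 : s + (q' + 1) - 1 + (q' + 3) = s + 2 * q' + 3 := by omega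
  rw [h5, hs] at h4
  nlinarith [h4]

/-- For `m ≥ 5` and every graph `H` on `m` vertices, `Phi_n(K_2, H) < m - 2` for
`n = 2 (m - 1) (m - 4)`. -/
theorem K2_lower {m : ℕ} (hm : 5 ≤ m) (H : SimpleGraph (Fin m)) :
    Phi (⊤ : SimpleGraph (Fin 2)) H (2 * (m - 1) * (m - 4)) < m - 2 := by
  obtain ⟨q, rfl⟩ : ∃ q, m = q + 2 + 2 := ⟨m - 4, by omega⟩
  have h1 : 2 * (q + 2 + 2 - 1) * (q + 2 + 2 - 4) = q * (q + 2 + 1) + q * (q + 2 + 1) := by
    have e1 : q + 2 + 2 - 1 = q + 3 := by omega
    have e2 : q + 2 + 2 - 4 = q := by omega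
    rw [e1, e2]
    ring
  rw [h1]
  have h2 : Phi (⊤ : SimpleGraph (Fin 2)) H (q * (q + 2 + 1) + q * (q + 2 + 1)) ≤ q + 1 := by
    apply Phi_le
    intro R
    by_contra hcon
    push Not at hcon
    exact K2_lower_aux (k := q + 2) (q := q) (s := q * (q + 2 + 1)) (by omega) rfl rfl H R
      (by omega)
  omega

end Pool.Agent.Lib.MP_f2857b_co
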