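import Pool.Agent.Lib.MP_f2857b_co.Basic

namespace Pool.Agent.Lib.MP_f2857b_co

open SimpleGraph

variable {a b n : ℕ} {G : SimpleGraph (Fin a)} {H : SimpleGraph (Fin b)}

/-- A vertex of a copy has at least the degree it has in the copied graph. -/
theorem degree_le_of_copy {c : ℕ} {F : SimpleGraph (Fin c)} {R : SimpleGraph (Fin n)}
    (f : SimpleGraph.Copy F R) (v : Fin c) :
    (F.neighborSet v).ncard ≤ (R.neighborSet (f v)).ncard := by
  have h1 : f '' (F.neighborSet v) ⊆ R.neighborSet (f v) := by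
    rintro _ ⟨w, hw, rfl⟩
    exact f.toHom.map_adj hw
  have h2 : (f '' (F.neighborSet v)).ncard = (F.neighborSet v).ncard :=
    Set.ncard_image_of_injective _ f.injective
  rw [← h2]
  exact Set.ncard_le_ncard h1 (Set.toFinite _)

theorem redDegree_add_compl (R : SimpleGraph (Fin n)) (v : Fin n) :
    redDegree R v + (Rᶜ.neighborSet v).ncard + 1 = n := by
  unfold redDegree
  have h1 : R.neighborSet v ∪ Rᶜ.neighborSet v = {v}ᶜ := by
    ext w
    simp only [Set.mem_union, SimpleGraph.mem_neighborSet, SimpleGraph.compl_adj,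
      Set.mem_compl_iff, Set.mem_singleton_iff]
    constructor
    · rintro (h | h)
      · exact fun e => h.ne e.symm
      · exact fun e => h.1 e.symm
    · intro h
      by_cases h' : R.Adj v w
      · exact Or.inl h'
      · exact Or.inr ⟨fun e => h e.symm, h'⟩
  have h2 : Disjoint (R.neighborSet v) (Rᶜ.neighborSet v) := by
    rw [Set.disjoint_left]
    intro w hw hw'
    exact hw'.2 hw
  have h3 := Set.ncard_union_eq h2 (Set.toFinite _) (Set.toFinite _)
  rw [h1] at h3
  have h4 : ({v}ᶜ : Set (Fin n)).ncard = n - 1 := by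
    rw [Set.ncard_compl, Set.ncard_singleton, Nat.card_eq_fintype_card, Fintype.card_fin]
  have h5 : 0 < n := v.pos
  omega

/-- If all degrees in `G` and in `H` are at least `d`, then `Phi_n(G,H) ≤ n - 1 - d`. -/
theorem Phi_le_of_minDegree (ha : 0 < a) (hb : 0 < b) {d : ℕ}
    (hG : ∀ v, d ≤ (G.neighborSet v).ncard) (hH : ∀ v, d ≤ (H.neighborSet v).ncard)
    (hn : ramsey G H ≤ n) : Phi G H n ≤ n - 1 - d := by
  apply Phi_le
  intro R
  obtain ⟨X, hX⟩ := exists_admissible_of_le (arrows_ramsey G H) hn R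
  refine (colSpread_le R hX).trans ?_
  apply spread_le R (hX.nonempty ha hb)
  intro u hu v hv
  have h1 := redDegree_add_compl R u
  have h2 := redDegree_add_compl R v
  rcases hX with ⟨f, rfl⟩ | ⟨f, rfl⟩
  · obtain ⟨y, rfl⟩ := hv
    have h3 := degree_le_of_copy f y
    have h4 := hG y
    unfold redDegree at *
    omega
  · obtain ⟨x, rfl⟩ := hu
    have h3 := degree_le_of_copy f x
    have h4 := hH x
    unfold redDegree at *
    omega

theorem three_le_ramsey (hG : ∀ v, 2 ≤ (G.neighborSet v).ncard)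
    (hH : ∀ v, 2 ≤ (H.neighborSet v).ncard) (ha : 0 < a) (hb : 0 < b) : 3 ≤ ramsey G H := by
  have h3 : ∀ {c : ℕ} (F : SimpleGraph (Fin c)), 0 < c → (∀ v, 2 ≤ (F.neighborSet v).ncard) →
      3 ≤ c := by
    intro c F hc hF
    have h4 := hF ⟨0, hc⟩
    have h5 := redDegree_add_compl F ⟨0, hc⟩
    unfold redDegree at h5
    omega
  have key : ∀ {c : ℕ} (F : SimpleGraph (Fin c)), 0 < c → (∀ v, 2 ≤ (F.neighborSet v).ncard) →
      ∀ {R : SimpleGraph (Fin (ramsey G H))}, Nonempty (SimpleGraph.Copy F R) →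
      3 ≤ ramsey G H := by
    rintro c F hc hF R ⟨f⟩
    have h6 := h3 F hc hF
    have h7 : c ≤ ramsey G H := by
      simpa using Fintype.card_le_of_injective f f.injective
    omega
  rcases arrows_ramsey G H ⊥ with h | h
  · exact key G ha hG h
  · exact key H hb hH h

end Pool.Agent.Lib.MP_f2857b_co
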