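import Pool.Agent.Lib.MP_f2857b_co.MinDegree

namespace Pool.Agent.Lib.MP_f2857b_co

open SimpleGraph

variable {a b n : ℕ} {G : SimpleGraph (Fin a)} {H : SimpleGraph (Fin b)}

/-- Double counting: `A`, `B` disjoint sets of `s` vertices; for `v ∈ B` let `C v` be a set of
non-neighbours of `v` inside `B`. -/
theorem double_count (R : SimpleGraph (Fin n)) (A B : Finset (Fin n)) (hAB : Disjoint A B)
    (s : ℕ) (hA : A.card = s) (C : Fin n → Finset (Fin n))
    (hC : ∀ v ∈ B, ∀ u ∈ C v, u ∈ B ∧ u ≠ v ∧ ¬ R.Adj v u) :
    ∑ v ∈ B, (redDegree R v + (C v).card) ≤ ∑ v ∈ A, redDegree R v + B.card * (n - s - 1) := by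
  classical
  have hdeg : ∀ v, redDegree R v = (Finset.univ.filter (fun w => R.Adj v w)).card := by
    intro v
    unfold redDegree
    rw [← Set.ncard_coe_finset]
    congr 1
    ext w
    simp
  have h1 : ∀ v ∈ B, redDegree R v + (C v).card ≤
      (A.filter (fun w => R.Adj v w)).card + (n - s - 1) := by
    intro v hv
    have hvA : v ∉ A := fun h => (Finset.disjoint_left.mp hAB h) hv
    have e1 : (Finset.univ.filter (fun w => R.Adj v w)).card =
        (A.filter (fun w => R.Adj v w)).card +
          ((Finset.univ \ A).filter (fun w => R.Adj v w)).card := by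
      rw [← Finset.card_union_of_disjoint]
      · congr 1
        ext w
        simp only [Finset.mem_filter, Finset.mem_univ, true_and, Finset.mem_union,
          Finset.mem_sdiff]
        tauto
      · rw [Finset.disjoint_left]
        intro w hw hw'
        simp only [Finset.mem_filter, Finset.mem_sdiff, Finset.mem_univ, true_and] at hw hw'
        exact hw'.1 hw.1
    have e2 : ((Finset.univ \ A).filter (fun w => R.Adj v w)).card + (C v).card ≤
        n - s - 1 := by
      rw [← Finset.card_union_of_disjoint]
      · have hsub : ((Finset.univ \ A).filter (fun w => R.Adj v w)) ∪ C v ⊆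
            (Finset.univ \ A).erase v := by
          intro w hw
          rw [Finset.mem_union] at hw
          rw [Finset.mem_erase, Finset.mem_sdiff]
          rcases hw with hw | hw
          · simp only [Finset.mem_filter, Finset.mem_sdiff, Finset.mem_univ, true_and] at hw
            exact ⟨fun h => by subst h; exact R.loopless.irrefl _ hw.2, Finset.mem_univ _, hw.1⟩
          · obtain ⟨hw1, hw2, hw3⟩ := hC v hv w hw
            exact ⟨hw2, Finset.mem_univ _, fun h => (Finset.disjoint_left.mp hAB h) hw1⟩
        refine (Finset.card_le_card hsub).trans ?_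
        rw [Finset.card_erase_of_mem (by simp [hvA]), Finset.card_sdiff_of_subset (Finset.subset_univ _),
          Finset.card_univ, Fintype.card_fin, hA]
      · rw [Finset.disjoint_left]
        intro w hw hw'
        simp only [Finset.mem_filter, Finset.mem_sdiff, Finset.mem_univ, true_and] at hw
        exact (hC v hv w hw').2.2 hw.2
    rw [hdeg, e1]
    omega
  have h2 : ∑ v ∈ B, (A.filter (fun w => R.Adj v w)).card ≤ ∑ u ∈ A, redDegree R u := by
    have h3 : ∑ v ∈ B, (A.filter (fun w => R.Adj v w)).card =
        ∑ u ∈ A, (B.filter (fun v => R.Adj v u)).card := by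
      simp only [Finset.card_filter]
      exact Finset.sum_comm
    rw [h3]
    refine Finset.sum_le_sum (fun u hu => ?_)
    rw [hdeg]
    apply Finset.card_le_card
    intro v hv
    simp only [Finset.mem_filter, Finset.mem_univ, true_and] at hv ⊢
    exact hv.2.symm
  calc ∑ v ∈ B, (redDegree R v + (C v).card)
      ≤ ∑ v ∈ B, ((A.filter (fun w => R.Adj v w)).card + (n - s - 1)) := Finset.sum_le_sum h1
    _ = ∑ v ∈ B, (A.filter (fun w => R.Adj v w)).card + B.card * (n - s - 1) := by
        rw [Finset.sum_add_distrib, Finset.sum_const, smul_eq_mul]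
    _ ≤ _ := by omega

/-- The sorted sequence of degrees. -/
theorem exists_sort (R : SimpleGraph (Fin n)) : ∃ σ : Equiv.Perm (Fin n),
    ∀ i j : Fin n, i ≤ j → redDegree R (σ i) ≤ redDegree R (σ j) := by
  refine ⟨Tuple.sort (redDegree R), fun i j h => ?_⟩
  exact Tuple.monotone_sort (redDegree R) h

/-- In a colouring in which the degrees (in sorted order) satisfy `δ (i + p) ≥ δ i + k` the
differences of degrees at distance `q p` are at least `q k`. -/
theorem chain {m : ℕ} (δ : ℕ → ℕ) (p k : ℕ) (h : ∀ i, i + p < m → δ i + k ≤ δ (i + p)) :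
    ∀ q i, i + q * p < m → δ i + q * k ≤ δ (i + q * p) := by
  intro q
  induction q with
  | zero => intro i _; simp
  | succ q ih =>
    intro i hi
    have h1 : i + q * p < m := by
      have : (q + 1) * p = q * p + p := by ring
      omega
    have h2 := ih i h1
    have h3 := h (i + q * p) (by
      have : (q + 1) * p = q * p + p := by ring
      omega)
    have e1 : i + (q + 1) * p = i + q * p + p := by ring
    have e2 : (q + 1) * k = q * k + k := by ring
    rw [e1, e2]
    omega

/-- Bottom and top `s` vertices in the sorted order; `n = s + q p`. -/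
theorem top_bottom (R : SimpleGraph (Fin n)) (σ : Equiv.Perm (Fin n)) (s q p k : ℕ)
    (hn : n = s + q * p) (hs : s ≤ q * p)
    (hwin : ∀ i j : Fin n, (i : ℕ) + p = j → redDegree R (σ i) + k ≤ redDegree R (σ j)) :
    ∃ A B : Finset (Fin n), Disjoint A B ∧ A.card = s ∧ B.card = s ∧
      (∀ v, v ∈ B ↔ q * p ≤ ((σ.symm v : Fin n) : ℕ)) ∧
      ∑ v ∈ A, redDegree R v + s * (q * k) ≤ ∑ v ∈ B, redDegree R v := by
  classical
  let δ : ℕ → ℕ := fun i => if h : i < n then redDegree R (σ ⟨i, h⟩) else 0
  have hδ : ∀ i (h : i < n), δ i = redDegree R (σ ⟨i, h⟩) := fun i h => by simp [δ, h]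
  have hch : ∀ i, i + p < n → δ i + k ≤ δ (i + p) := by
    intro i hi
    rw [hδ i (by omega), hδ (i + p) hi]
    exact hwin _ _ rfl
  have hch2 := chain δ p k hch q
  let eA : Fin s → Fin n := fun i => σ ⟨i, by omega⟩
  let eB : Fin s → Fin n := fun i => σ ⟨i + q * p, by omega⟩
  have hA : Function.Injective eA := by
    intro i j h
    have := σ.injective h
    simp only [Fin.mk.injEq] at this
    exact Fin.ext this
  have hB : Function.Injective eB := by
    intro i j h
    have := σ.injective h
    simp only [Fin.mk.injEq] at this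
    exact Fin.ext (by omega)
  refine ⟨Finset.univ.image eA, Finset.univ.image eB, ?_, ?_, ?_, ?_, ?_⟩
  · rw [Finset.disjoint_left]
    intro x hx hx'
    obtain ⟨i, _, rfl⟩ := Finset.mem_image.mp hx
    obtain ⟨j, _, hj⟩ := Finset.mem_image.mp hx'
    have := σ.injective hj
    simp only [Fin.mk.injEq] at this
    omega
  · rw [Finset.card_image_of_injective _ hA, Finset.card_univ, Fintype.card_fin]
  · rw [Finset.card_image_of_injective _ hB, Finset.card_univ, Fintype.card_fin]
  · intro v
    rw [Finset.mem_image]
    constructor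
    · rintro ⟨i, _, rfl⟩
      simp only [eB, Equiv.symm_apply_apply]
      omega
    · intro h
      refine ⟨⟨(σ.symm v : Fin n) - q * p, by omega⟩, Finset.mem_univ _, ?_⟩
      simp only [eB]
      have : (⟨(σ.symm v : Fin n) - q * p + q * p, by omega⟩ : Fin n) = σ.symm v := by
        apply Fin.ext
        simp only
        omega
      rw [this, Equiv.apply_symm_apply]
  · rw [Finset.sum_image (fun x _ y _ h => hA h), Finset.sum_image (fun x _ y _ h => hB h)]
    have : s * (q * k) = ∑ _i : Fin s, q * k := by simp
    rw [this, ← Finset.sum_add_distrib]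
    refine Finset.sum_le_sum (fun i _ => ?_)
    have h1 := hch2 i (by omega)
    rw [hδ i (by omega), hδ (i + q * p) (by omega)] at h1
    exact h1

/-- `Phi_n(G,H) ≤ r(G,H) - 2` for every `n ≥ r(G,H)`. -/
theorem Phi_le_ramsey (ha : 0 < a) (hb : 0 < b) (hr : 2 ≤ ramsey G H)
    (hn : ramsey G H ≤ n) : Phi G H n ≤ ramsey G H - 2 := by
  classical
  apply Phi_le
  intro R
  by_contra hcon
  push Not at hcon
  set r := ramsey G H with hrdef
  obtain ⟨σ, hσ⟩ := exists_sort R
  have hwin : ∀ i j : Fin n, (i : ℕ) + (r - 1) = j →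
      redDegree R (σ i) + (r - 1) ≤ redDegree R (σ j) := by
    intro i j hij
    have hlt : ∀ t : Fin r, (i : ℕ) + t < n := by
      intro t
      have := t.2
      have := j.2
      omega
    let e : Fin r → Fin n := fun t => σ ⟨i + t, hlt t⟩
    have he : Function.Injective e := by
      intro x y h
      have := σ.injective h
      simp only [Fin.mk.injEq] at this
      exact Fin.ext (by omega)
    obtain ⟨X, hX, hXe⟩ := exists_admissible (arrows_ramsey G H) R e he
    have h1 := colSpread_le R hX
    have h2 : spread R X ≤ redDegree R (σ j) - redDegree R (σ i) := by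
      apply spread_le R (hX.nonempty ha hb)
      intro u hu v hv
      obtain ⟨x, rfl⟩ := hXe hu
      obtain ⟨y, rfl⟩ := hXe hv
      have h3 : redDegree R (e x) ≤ redDegree R (σ j) := by
        apply hσ
        rw [Fin.le_def]
        have := x.2
        simp only
        omega
      have h4 : redDegree R (σ i) ≤ redDegree R (e y) := by
        apply hσ
        rw [Fin.le_def]
        simp
      omega
    have h5 : redDegree R (σ i) ≤ redDegree R (σ j) := by
      apply hσ
      rw [Fin.le_def]
      omega
    omega
  -- choose s with n - s a multiple of r - 1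
  obtain ⟨s, q, hs1, hs2, hsn⟩ : ∃ s q : ℕ, 1 ≤ s ∧ s ≤ q * (r - 1) ∧ n = s + q * (r - 1) := by
    have hp : 0 < r - 1 := by omega
    rcases Nat.eq_zero_or_pos (n % (r - 1)) with h0 | h0
    · have h1 := Nat.div_add_mod n (r - 1)
      have h2 : 2 ≤ n / (r - 1) := by
        by_contra hlt
        have h3 : n / (r - 1) ≤ 1 := by omega
        have h4 : (r - 1) * (n / (r - 1)) ≤ (r - 1) * 1 := Nat.mul_le_mul_left _ h3
        omega
      refine ⟨r - 1, n / (r - 1) - 1, by omega, ?_, ?_⟩
      · have : 1 * (r - 1) ≤ (n / (r - 1) - 1) * (r - 1) := Nat.mul_le_mul_right _ (by omega)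
        omega
      · have h5 : (n / (r - 1) - 1) * (r - 1) = (r - 1) * (n / (r - 1)) - (r - 1) := by
          rw [Nat.sub_mul, mul_comm, one_mul]
        have h6 : (r - 1) * 2 ≤ (r - 1) * (n / (r - 1)) := Nat.mul_le_mul_left _ h2
        omega
    · have h1 := Nat.div_add_mod n (r - 1)
      have h2 : n % (r - 1) < r - 1 := Nat.mod_lt _ hp
      have h3 : 1 ≤ n / (r - 1) := (Nat.one_le_div_iff hp).mpr (by omega)
      refine ⟨n % (r - 1), n / (r - 1), h0, ?_, ?_⟩
      · have : 1 * (r - 1) ≤ (n / (r - 1)) * (r - 1) := Nat.mul_le_mul_right _ h3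
        omega
      · rw [mul_comm (n / (r - 1))]
        omega
  obtain ⟨A, B, hAB, hA, hB, _, hsum⟩ := top_bottom R σ s q (r - 1) (r - 1) hsn hs2 hwin
  have hdc := double_count R A B hAB s hA (fun _ => ∅) (by simp)
  simp only [Finset.card_empty, add_zero, hB] at hdc
  have h1 : n - s - 1 = q * (r - 1) - 1 := by omega
  rw [h1] at hdc
  have h2 : s * (q * (r - 1)) ≤ s * (q * (r - 1) - 1) := by omega
  have h3 : q * (r - 1) ≤ q * (r - 1) - 1 := Nat.le_of_mul_le_mul_left h2 hs1
  omega

end Pool.Agent.Lib.MP_f2857b_co
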